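import Mathlib

set_option autoImplicit false
set_option warn.classDefReducibility false

namespace Pool.Agent.Results.MP_f8d954_co.NoReal

/-- no four points `a < c`, `b < d` with `¬ b ≤ c` and `¬ a ≤ d` -/
def IsIntervalOrder {P : Type} (r : PartialOrder P) : Prop :=
  ¬ ∃ a b c d, r.lt a c ∧ r.lt b d ∧ ¬ r.le b c ∧ ¬ r.le a d

/-- `k` is the rank of `p`: the longest chain with largest element `p` has `k + 1` elements -/
def HasRank {P : Type} (r : PartialOrder P) (p : P) (k : ℕ) : Prop :=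
  IsGreatest {m | ∃ f : Fin (m + 1) → P, (∀ i j, i < j → r.lt (f i) (f j)) ∧ f (Fin.last m) = p} k

def Realizer {P : Type} (r : PartialOrder P) {k : ℕ} (s : Fin k → PartialOrder P) : Prop :=
  (∀ j, IsIntervalOrder (s j)) ∧ ∀ x y, r.le x y ↔ ∀ j, (s j).le x y

/-- the order generated by a decidable table -/
def mk (t : Fin 5 → Fin 5 → Bool) (h1 : ∀ a, t a a = true)
    (h2 : ∀ a b c, t a b = true → t b c = true → t a c = true)
    (h3 : ∀ a b, t a b = true → t b a = true → a = b) : PartialOrder (Fin 5) where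
  le a b := t a b = true
  lt a b := t a b = true ∧ ¬ t b a = true
  le_refl := h1
  le_trans := h2
  le_antisymm := h3
  lt_iff_le_not_ge _ _ := Iff.rfl

/-- the disjoint union of the chains `0 < 1` and `2 < 3 < 4` -/
def P5 : PartialOrder (Fin 5) :=
  mk (fun a b => decide (a ≤ b ∧ (a ≤ 1 ↔ b ≤ 1))) (by decide) (by decide) (by decide)

def Q1 : PartialOrder (Fin 5) := mk (fun a b => decide (a ≤ b)) (by decide) (by decide) (by decide)

def Q2 : PartialOrder (Fin 5) :=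
  mk (fun a b => decide (a + 3 ≤ b + 3)) (by decide) (by decide) (by decide)

theorem result : ∃ r : PartialOrder (Fin 5),
    IsLeast {k | ∃ s : Fin k → PartialOrder (Fin 5), Realizer r s} 2 ∧
    ∀ (k : ℕ) (s : Fin k → PartialOrder (Fin 5)), Realizer r s →
      ¬ ∀ j p m, HasRank (s j) p m ↔ HasRank r p m := by
  have lt : ∀ a b, P5.lt a b ↔ (a < b ∧ (a ≤ 1 ↔ b ≤ 1)) := by
    show ∀ a b : Fin 5, (decide (a ≤ b ∧ (a ≤ 1 ↔ b ≤ 1)) = true ∧
      ¬ decide (b ≤ a ∧ (b ≤ 1 ↔ a ≤ 1)) = true) ↔ _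
    decide
  have le : ∀ a b, P5.le a b ↔ (a ≤ b ∧ (a ≤ 1 ↔ b ≤ 1)) := by
    show ∀ a b : Fin 5, (decide (a ≤ b ∧ (a ≤ 1 ↔ b ≤ 1)) = true) ↔ _
    decide
  have up : ∀ {k : ℕ} {s : Fin k → PartialOrder (Fin 5)}, Realizer P5 s → ∀ j a b,
      P5.lt a b → (s j).lt a b := by
    intro k s hs j a b h
    have h' := (lt a b).1 h
    have h1 := (hs.2 a b).1 ((le a b).2 ⟨h'.1.le, h'.2⟩) j
    exact ((s j).lt_iff_le_not_ge a b).2 ⟨h1, fun h2 => h'.1.ne ((s j).le_antisymm a b h1 h2)⟩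
  refine ⟨P5, ⟨⟨![Q1, Q2], ?_, ?_⟩, ?_⟩, ?_⟩
  · intro j
    fin_cases j
    · show ¬ ∃ a b c d : Fin 5, (decide (a ≤ c) = true ∧ ¬ decide (c ≤ a) = true) ∧
        (decide (b ≤ d) = true ∧ ¬ decide (d ≤ b) = true) ∧ ¬ decide (b ≤ c) = true ∧
        ¬ decide (a ≤ d) = true
      decide
    · show ¬ ∃ a b c d : Fin 5, (decide (a + 3 ≤ c + 3) = true ∧ ¬ decide (c + 3 ≤ a + 3) = true) ∧
        (decide (b + 3 ≤ d + 3) = true ∧ ¬ decide (d + 3 ≤ b + 3) = true) ∧
        ¬ decide (b + 3 ≤ c + 3) = true ∧ ¬ decide (a + 3 ≤ d + 3) = true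
      decide
  · intro x y
    rw [le, Fin.forall_fin_two]
    show _ ↔ decide (x ≤ y) = true ∧ decide (x + 3 ≤ y + 3) = true
    revert x y
    decide
  · rintro k ⟨s, hs⟩
    by_contra hk
    obtain rfl | rfl : k = 0 ∨ k = 1 := by omega
    · exact absurd ((le 1 0).1 ((hs.2 1 0).2 (fun j => j.elim0))) (by decide)
    · refine hs.1 0 ⟨0, 3, 1, 4, up hs 0 _ _ ((lt _ _).2 (by decide)),
        up hs 0 _ _ ((lt _ _).2 (by decide)), fun h => ?_, fun h => ?_⟩
      · exact absurd ((le _ _).1 ((hs.2 _ _).2 (fun j => by rwa [Subsingleton.elim j 0])))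
          (by decide)
      · exact absurd ((le _ _).1 ((hs.2 _ _).2 (fun j => by rwa [Subsingleton.elim j 0])))
          (by decide)
  · intro k s hs hr
    have rk : HasRank P5 1 1 := by
      refine ⟨⟨![0, 1], ?_, rfl⟩, ?_⟩
      · simp only [lt]; decide
      · rintro m ⟨f, h1, h2⟩
        by_contra hm
        have a1 := (lt _ _).1 (h1 ⟨0, by omega⟩ ⟨1, by omega⟩ (by simp [Fin.lt_def]))
        have a2 := (lt _ _).1 (h1 ⟨1, by omega⟩ (Fin.last m) (by simp [Fin.lt_def]; omega))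
        rw [h2] at a2
        omega
    have n04 : ¬ ∀ j, (s j).le 0 4 := fun h => absurd ((le _ _).1 ((hs.2 _ _).2 h)) (by decide)
    push Not at n04
    obtain ⟨j, hj⟩ := n04
    have h31 : (s j).le 3 1 := by
      by_contra h
      exact hs.1 j ⟨0, 3, 1, 4, up hs j _ _ ((lt _ _).2 (by decide)),
        up hs j _ _ ((lt _ _).2 (by decide)), h, hj⟩
    have l31 : (s j).lt 3 1 :=
      ((s j).lt_iff_le_not_ge _ _).2 ⟨h31, fun h => absurd ((s j).le_antisymm _ _ h31 h) (by decide)⟩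
    have l23 : (s j).lt 2 3 := up hs j _ _ ((lt _ _).2 (by decide))
    have := ((hr j 1 1).2 rk).2 ⟨![2, 3, 1], ?_, rfl⟩
    · exact absurd this (by decide)
    · intro a b hab
      have : ∀ a b : Fin 3, a < b → (a = 0 ∧ b = 1) ∨ (a = 0 ∧ b = 2) ∨ (a = 1 ∧ b = 2) := by
        decide
      rcases this a b hab with ⟨rfl, rfl⟩ | ⟨rfl, rfl⟩ | ⟨rfl, rfl⟩
      · exact l23
      · exact @lt_trans _ (s j).toPreorder _ _ _ l23 l31
      · exact l31

end Pool.Agent.Results.MP_f8d954_co.NoReal
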